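import Pool.Agent.Lib.MP_c7af3c_ag.ELL.Iface

/-!
# MP_c7af3c_ag, project ELL: the curve is integral and of finite type (module INTE)
-/

set_option autoImplicit false

namespace Pool.Agent.Ell.H48

open AlgebraicGeometry CategoryTheory CategoryTheory.Limits Pool.Agent.Ell

variable (k : Type) [Field k]

theorem bx_ne_zero : bx k ≠ 0 := by
  intro h
  have h1 : bHom (R := k) (A := k) 1 0 (by simp [OnC]) (bx k) = 1 := bHom_bx _ _ _
  rw [h, map_zero] at h1
  exact zero_ne_one h1

instance : Nontrivial (Bx k) := by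
  have : IsDomain (B k) := isDomain_B k
  exact (IsLocalization.isDomain_localization (M := Submonoid.powers (bx k))
    (powers_le_nonZeroDivisors_of_noZeroDivisors (bx_ne_zero k))).toNontrivial

instance : Nonempty (Vv k) := inferInstanceAs (Nonempty (PrimeSpectrum (Bx k)))

theorem meets (U : Set (El k)) (hU : IsOpen U) (hne : U.Nonempty) :
    ∃ y : Cv k, j0 k y ∈ U := by
  have : IsDomain (B k) := isDomain_B k
  obtain ⟨x, hx⟩ := hne
  rcases j_surj k x with ⟨y, rfl⟩ | ⟨y, rfl⟩
  · exact ⟨y, hx⟩
  · have h1 : IsOpen ((j1 k) ⁻¹' U) := hU.preimage (j1 k).continuous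
    have h2 : IsOpen (Set.range (jt k)) := (jt k).isOpenEmbedding.isOpen_range
    obtain ⟨z0⟩ := (inferInstance : Nonempty (Vv k))
    obtain ⟨w, hw1, ⟨z, hz⟩⟩ := nonempty_preirreducible_inter (X := Cv k) h1 h2 ⟨y, hx⟩
      ⟨jt k z0, z0, rfl⟩
    refine ⟨jj k z, ?_⟩
    have h3 : j0 k (jj k z) = j1 k (jt k z) := by
      rw [← Scheme.Hom.comp_apply, ← Scheme.Hom.comp_apply, glue]
    rw [h3, hz]
    exact hw1

instance : Nonempty (Cv k) := by
  have : IsDomain (B k) := isDomain_B k
  exact inferInstanceAs (Nonempty (PrimeSpectrum (B k)))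

instance irr : IrreducibleSpace (El k) := by
  have : IsDomain (B k) := isDomain_B k
  refine { isPreirreducible_univ := ?_, toNonempty := ?_ }
  · rintro U V hU hV ⟨x, -, hx⟩ ⟨y, -, hy⟩
    obtain ⟨a, ha⟩ := meets k U hU ⟨x, hx⟩
    obtain ⟨b, hb⟩ := meets k V hV ⟨y, hy⟩
    obtain ⟨c, hc1, hc2⟩ := nonempty_preirreducible_inter (X := Cv k)
      (hU.preimage (j0 k).continuous) (hV.preimage (j0 k).continuous) ⟨a, ha⟩ ⟨b, hb⟩
    exact ⟨j0 k c, trivial, hc1, hc2⟩
  · obtain ⟨z⟩ := (inferInstance : Nonempty (Cv k))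
    exact ⟨j0 k z⟩

/-- the open cover by the three pieces -/
noncomputable def cov : (El k).OpenCover :=
  Scheme.IsLocallyDirected.openCover (span (jj k) (jt k))

instance red : IsReduced (El k) := by
  have : IsDomain (B k) := isDomain_B k
  have : ∀ x : El k, _root_.IsReduced ((El k).presheaf.stalk x) := by
    intro x
    rcases j_surj k x with ⟨y, rfl⟩ | ⟨y, rfl⟩
    · exact isReduced_of_injective ((j0 k).stalkMap y).hom
        ((ConcreteCategory.bijective_of_isIso ((j0 k).stalkMap y)).1)
    · exact isReduced_of_injective ((j1 k).stalkMap y).hom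
        ((ConcreteCategory.bijective_of_isIso ((j1 k).stalkMap y)).1)
  exact isReduced_of_isReduced_stalk _

instance comp : CompactSpace (El k) := by
  refine ⟨?_⟩
  have h : (Set.univ : Set (El k)) = Set.range (j0 k) ∪ Set.range (j1 k) := by
    ext x
    simp only [Set.mem_univ, Set.mem_union, Set.mem_range, true_iff]
    exact j_surj k x
  rw [h]
  exact (isCompact_range (j0 k).continuous).union (isCompact_range (j1 k).continuous)

instance : LocallyOfFiniteType (sC k) := by
  unfold sC
  rw [HasRingHomProperty.Spec_iff (P := @LocallyOfFiniteType)]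
  exact RingHom.finiteType_algebraMap.2 (finiteType_B k)

theorem lft : LocallyOfFiniteType (sE k) := by
  have h : ∀ i : WalkingSpan, LocallyOfFiniteType (colimit.ι (span (jj k) (jt k)) i ≫ sE k) := by
    intro i
    rcases i with _ | _ | _
    · rw [← colimit.w (span (jj k) (jt k)) WalkingSpan.Hom.fst, Category.assoc]
      change LocallyOfFiniteType (jj k ≫ j0 k ≫ sE k)
      rw [j0_sE]
      infer_instance
    · change LocallyOfFiniteType (j0 k ≫ sE k)
      rw [j0_sE]
      infer_instance
    · change LocallyOfFiniteType (j1 k ≫ sE k)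
      rw [j1_sE]
      infer_instance
  exact IsZariskiLocalAtSource.of_openCover (P := @LocallyOfFiniteType) (cov k) h

/-- Module INTE. -/
theorem inte : InteStatement := by
  intro k _
  refine ⟨isIntegral_of_irreducibleSpace_of_isReduced _, lft k, ?_⟩
  rw [quasiCompact_iff_compactSpace]
  infer_instance

end Pool.Agent.Ell.H48
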